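import Pool.Agent.H79.QF.Targets

set_option autoImplicit false

open Finset Pool.Agent.H79.QF

namespace Pool.Agent.H38.QF

theorem pf_HA2 : T_HA2 := by
  intro R hR
  have hR0 : (0 : ℝ) < R := by exact_mod_cast hR
  constructor
  · have h1 : ∑ d ∈ range R, 1 / ((d : ℝ) + 1) = ((harmonic R : ℚ) : ℝ) := by
      rw [harmonic]
      push_cast
      exact Finset.sum_congr rfl fun d _ => by rw [one_div]
    have h2 := harmonic_le_one_add_log R
    rw [h1]
    refine h2.trans ?_
    have he : (0 : ℝ) < Real.exp 1 := Real.exp_pos 1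
    have ht : 0 < Real.sqrt (R / Real.exp 1) := Real.sqrt_pos.mpr (div_pos hR0 he)
    have h3 := Real.log_le_sub_one_of_pos ht
    rw [Real.log_sqrt (div_pos hR0 he).le, Real.log_div hR0.ne' he.ne', Real.log_exp] at h3
    have h4 : Real.sqrt (R / Real.exp 1) ≤ 61 / 100 * Real.sqrt R := by
      apply Real.sqrt_le_iff.mpr
      refine ⟨by positivity, ?_⟩
      rw [mul_pow, Real.sq_sqrt hR0.le, div_le_iff₀ he]
      have h5 := Real.exp_one_gt_d9
      nlinarith
    linarith
  · have h6 : ∀ n : ℕ, 1 ≤ n → ∑ d ∈ range n, 1 / ((d : ℝ) + 1) ^ 2 ≤ 2 - 1 / (n : ℝ) := by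
      intro n hn
      induction n, hn using Nat.le_induction with
      | base => norm_num
      | succ n hn ih =>
        rw [Finset.sum_range_succ]
        have hn0 : (0 : ℝ) < n := by exact_mod_cast hn
        have h7 : 1 / ((n : ℝ) + 1) ^ 2 ≤ 1 / (n : ℝ) - 1 / ((n : ℝ) + 1) := by
          rw [div_sub_div _ _ hn0.ne' (by positivity), div_le_div_iff₀ (by positivity) (by positivity)]
          nlinarith
        push_cast
        linarith
    have h8 := h6 R hR
    have h9 : 0 ≤ 1 / (R : ℝ) := by positivity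
    linarith

end Pool.Agent.H38.QF
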