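import Pool.Agent.H79.QF.Targets

set_option autoImplicit false

open Finset Matrix Pool.Agent.H79.QF

namespace Pool.Agent.H38.QF

theorem pf_PRB (hNRM : T_NRM) : T_PRB := by
  classical
  intro s Q v v'
  have hn1 := hNRM s Q v Q.T
  have hn2 := hNRM s Q v' Q.T
  set a : Q.basis → ℂ := Q.state v Q.T with ha
  set b : Q.basis → ℂ := Q.state v' Q.T with hb
  have h1 : ∀ i, |‖a i‖ ^ 2 - ‖b i‖ ^ 2| ≤ ‖a i - b i‖ * (‖a i‖ + ‖b i‖) := by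
    intro i
    have h2 : ‖a i‖ ^ 2 - ‖b i‖ ^ 2 = (‖a i‖ - ‖b i‖) * (‖a i‖ + ‖b i‖) := by ring
    rw [h2, abs_mul, abs_of_nonneg (add_nonneg (norm_nonneg (a i)) (norm_nonneg (b i)))]
    exact mul_le_mul_of_nonneg_right (abs_norm_sub_norm_le _ _) (by positivity)
  have h3 : |Q.prob v - Q.prob v'| ≤ ∑ i, ‖a i - b i‖ * (‖a i‖ + ‖b i‖) := by
    rw [GQ.prob, GQ.prob, ← Finset.sum_sub_distrib]
    calc |∑ i ∈ Q.acc, (‖Q.state v Q.T i‖ ^ 2 - ‖Q.state v' Q.T i‖ ^ 2)|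
        ≤ ∑ i ∈ Q.acc, |‖Q.state v Q.T i‖ ^ 2 - ‖Q.state v' Q.T i‖ ^ 2| :=
          Finset.abs_sum_le_sum_abs _ _
      _ ≤ ∑ i ∈ Q.acc, ‖a i - b i‖ * (‖a i‖ + ‖b i‖) := Finset.sum_le_sum fun i _ => h1 i
      _ ≤ ∑ i, ‖a i - b i‖ * (‖a i‖ + ‖b i‖) :=
          Finset.sum_le_sum_of_subset_of_nonneg (Finset.subset_univ _) fun i _ _ => by positivity
  have h4 : ∑ i, ‖a i - b i‖ * (‖a i‖ + ‖b i‖) ≤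
      Real.sqrt (∑ i, ‖a i - b i‖ ^ 2) * Real.sqrt (∑ i, (‖a i‖ + ‖b i‖) ^ 2) :=
    Real.sum_mul_le_sqrt_mul_sqrt _ _ _
  have h5 : ∑ i, (‖a i‖ + ‖b i‖) ^ 2 ≤ 4 := by
    calc ∑ i, (‖a i‖ + ‖b i‖) ^ 2 ≤ ∑ i, (2 * ‖a i‖ ^ 2 + 2 * ‖b i‖ ^ 2) :=
          Finset.sum_le_sum fun i _ => by nlinarith [sq_nonneg (‖a i‖ - ‖b i‖)]
      _ = 2 * ∑ i, ‖a i‖ ^ 2 + 2 * ∑ i, ‖b i‖ ^ 2 := by
          rw [Finset.sum_add_distrib, Finset.mul_sum, Finset.mul_sum]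
      _ = 4 := by rw [hn1, hn2]; norm_num
  have h6 : Real.sqrt (∑ i, (‖a i‖ + ‖b i‖) ^ 2) ≤ 2 := by
    apply Real.sqrt_le_iff.mpr
    exact ⟨by norm_num, by linarith⟩
  have h7 : 0 ≤ Real.sqrt (∑ i, ‖a i - b i‖ ^ 2) := Real.sqrt_nonneg _
  have h8 : Real.sqrt (∑ i, ‖a i - b i‖ ^ 2) * Real.sqrt (∑ i, (‖a i‖ + ‖b i‖) ^ 2) ≤
      Real.sqrt (∑ i, ‖a i - b i‖ ^ 2) * 2 := mul_le_mul_of_nonneg_left h6 h7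
  rw [GQ.dist]
  linarith

end Pool.Agent.H38.QF
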